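import Mathlib
import Pool.Agent.Lib.MP_39df77_nt.OL.MainK

namespace Pool.Agent.Results.MP_39df77_nt.AllOrdersOffLine

open Complex MeasureTheory Filter Topology

/-- The coefficients of `ζ(s)^z` : `∏_{p^j ∥ n} z (z+1) ⋯ (z+j-1) / j!`. -/
noncomputable def d (z : ℝ) (n : ℕ) : ℝ :=
  n.factorization.prod fun _ j => ∏ i ∈ Finset.range j, (z + i) / (i + 1)

/-- Moments of the Riemann zeta function of all real orders, off the line. There is `c > 0` such that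
for all `1/2 < σ ≤ 5/8` and all real `A > 0` with `A < 492/(373 - 500σ)` and `A < 516/(377 - 500σ)`, or with
`A ≤ 4/(3 - 4σ) + c (σ - 1/2)`, the mean value over `[0, T]` of `|ζ(σ + it)|^A` tends to
`∑_n d_{A/2}(n)^2 n^{-2σ}`, a convergent series. -/
theorem result : ∃ c : ℝ, 0 < c ∧ ∀ σ : ℝ, 1 / 2 < σ → σ ≤ 5 / 8 → ∀ A : ℝ, 0 < A →
    (A < 492 / (373 - 500 * σ) ∧ A < 516 / (377 - 500 * σ) ∨
      A ≤ 4 / (3 - 4 * σ) + c * (σ - 1 / 2)) →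
    Summable (fun n : ℕ => d (A / 2) n ^ 2 * (n : ℝ) ^ (-(2 * σ))) ∧
    Tendsto (fun T : ℝ => T⁻¹ * ∫ t in (0 : ℝ)..T, ‖riemannZeta (σ + t * I)‖ ^ A) atTop
      (𝓝 (∑' n : ℕ, d (A / 2) n ^ 2 * (n : ℝ) ^ (-(2 * σ)))) :=
  OL.main_k

end Pool.Agent.Results.MP_39df77_nt.AllOrdersOffLine
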