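import Mathlib
import Pool.Agent.Lib.MP_069854_nt.Part11

namespace Pool.Agent.Results.MP_39df77_nt.SixthLowerBound

open Filter Topology Complex MeasureTheory

/-- `M_3(T)`, the sixth moment of zeta on the critical line. -/
noncomputable def M (T : ℝ) : ℝ := T⁻¹ * ∫ t in (0:ℝ)..T, ‖riemannZeta (1/2 + I * t)‖ ^ 6

/-- The Euler factor at the prime `p` of the arithmetic constant `a_3`. -/
noncomputable def eulerFactor (p : Nat.Primes) : ℝ :=
  (1 - 1 / ((p : ℕ) : ℝ)) ^ 9 * ∑' m : ℕ, ((m + 2).choose 2 : ℝ) ^ 2 / ((p : ℕ) : ℝ) ^ m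

/-- The arithmetic factor `a_3`. -/
noncomputable def a : ℝ := ∏' p : Nat.Primes, eulerFactor p

/-- Unconditional lower bound for the sixth moment of the Riemann zeta function:
`liminf M_3(T) / ((a_3/9!) (log T)^9) ≥ 40.0320...` (conjecture: `42`). -/
theorem result :
    Multipliable eulerFactor ∧ 0 < a ∧
    ∀ c : ℝ, c < 2918337042697 / 72900000000 →
      ∀ᶠ T : ℝ in atTop, c * a / Nat.factorial 9 * Real.log T ^ 9 ≤ M T := by
  have hEF : ∀ p : Nat.Primes, eulerFactor p = (1 - 1 / ((p : ℕ) : ℝ)) ^ (3 ^ 2) *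
      ∑' m : ℕ, (MP069854.dk 3 ((p : ℕ) ^ m) : ℝ) ^ 2 / ((p : ℕ) : ℝ) ^ m := by
    intro p
    unfold eulerFactor
    congr 1
    refine tsum_congr fun m => ?_
    rw [MP069854.dk_prime_pow p.2, Nat.multichoose_eq, show 3 + m - 1 = m + 2 by omega,
      Nat.choose_symm_of_eq_add (show m + 2 = m + 2 from rfl)]
  have ha : a = MP069854.arith 3 := by
    unfold a MP069854.arith
    exact tprod_congr hEF
  have hapos : 0 < a := by rw [ha]; exact MP069854.arith_pos 3
  refine ⟨?_, hapos, fun c hc => ?_⟩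
  · have := MP069854.arith_multipliable 3
    exact this.congr fun p => (hEF p).symm
  · rw [ha]
    exact K3.sixth0 K3.goodRG hc

end Pool.Agent.Results.MP_39df77_nt.SixthLowerBound
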