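import Mathlib
import Pool.Agent.Lib.MP_39df77_nt.OL.MainG

namespace Pool.Agent.Results.MP_39df77_nt.SixthOffLine

open Complex MeasureTheory

/-- `d₃(n)`: the number of triples of positive integers with product `n` -/
def d3 (n : ℕ) : ℕ := ∑ d ∈ n.divisors, d.divisors.card

/-- The sixth moment of the Riemann zeta function off the critical line. With `c = 1/750`, so that
`7/12 - c = 0.582`: for `1/2 ≤ σ ≤ 7/12 - c` it is `O(T^{1 + 2.91 (7/12 - c - σ)})`, and for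
`7/12 - c < σ < 1` the mean value tends to `∑ d₃(n)² n^{-2σ}` with a power saving in the error term. -/
theorem result :
    (∀ σ : ℝ, 1 / 2 ≤ σ → σ ≤ 7 / 12 - 1 / 750 → ∃ C : ℝ, ∀ T : ℝ, 1 ≤ T →
      ∫ t in (0 : ℝ)..T, ‖riemannZeta (σ + t * I)‖ ^ 6 ≤
        C * T ^ (1 + 291 / 100 * (7 / 12 - 1 / 750 - σ))) ∧
    (∀ σ : ℝ, 7 / 12 - 1 / 750 < σ → σ < 1 →
      Summable (fun n : ℕ => (d3 n : ℝ) ^ 2 * (n : ℝ) ^ (-(2 * σ))) ∧
      ∃ η C : ℝ, 0 < η ∧ ∀ T : ℝ, 1 ≤ T →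
        |T⁻¹ * (∫ t in (0 : ℝ)..T, ‖riemannZeta (σ + t * I)‖ ^ 6) -
          ∑' n : ℕ, (d3 n : ℝ) ^ 2 * (n : ℝ) ^ (-(2 * σ))| ≤ C * T ^ (-η)) :=
  ⟨fun _ h1 h2 => OL.main_left_g h1 h2, fun _ h1 h2 => OL.main_right_g h1 h2⟩

end Pool.Agent.Results.MP_39df77_nt.SixthOffLine
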