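import Mathlib
import Pool.Agent.Lib.MP_39df77_nt.T12.Final

namespace Pool.Agent.Results.MP_39df77_nt.SixthUpperBound

open Complex MeasureTheory

/-- There is `a > 0` such that for every real `A` with `4 < A ≤ 12 + a` and every
`δ < min((A-4)/168, (12-A)/504 + a (A-6)/6)` there is a constant `C` with
`∫_0^T |ζ(1/2+it)|^A dt ≤ C T^{1 + (A-4)/8 - δ}` for all `T ≥ 1`. For `A = 6` this is the sixth moment:
every exponent greater than `5/4 - 1/84`; for `A = 12` it is the twelfth moment with some exponent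
less than `2`. -/
theorem result : ∃ a : ℝ, 0 < a ∧ ∀ A : ℝ, 4 < A → A ≤ 12 + a →
    ∀ δ : ℝ, δ < min ((A - 4) / 168) ((12 - A) / 504 + a * (A - 6) / 6) →
    ∃ C : ℝ, ∀ T : ℝ, 1 ≤ T →
      ∫ t in (0 : ℝ)..T, ‖riemannZeta (1 / 2 + t * I)‖ ^ A ≤ C * T ^ (1 + (A - 4) / 8 - δ) :=
  T12.all_orders_y

end Pool.Agent.Results.MP_39df77_nt.SixthUpperBound
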